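import Pool.Agent.T9h44.NK.Defs

/-! Project NK (helper44), piece VF, third conjunct: the faces of the figure are figures of faces. Author: helper57. -/

set_option autoImplicit false

open Set
open scoped RealInnerProductSpace

namespace Pool.Agent.T9h57.NK

open Pool.Agent.T9h98.DC
open Pool.Agent.T9h44.NK

/-- `ι` maps onto the orthogonal complement of `n` -/
theorem ort_surj {d : ℕ} {n : E (d + 1)} {ι : E d →ₗᵢ[ℝ] E (d + 1)} (hn : n ≠ 0) (ho : Ort n ι) (y : E (d + 1))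
    (hy : ⟪n, y⟫ = 0) : ∃ x, ι x = y := by
  have h1 : LinearMap.range ι.toLinearMap ≤ (ℝ ∙ n)ᗮ := by
    rintro _ ⟨x, rfl⟩
    rw [Submodule.mem_orthogonal_singleton_iff_inner_right]
    exact ho x
  have h2 : Module.finrank ℝ (LinearMap.range ι.toLinearMap) = d := by
    rw [LinearMap.finrank_range_of_inj ι.injective]
    simp
  have : Fact (Module.finrank ℝ (E (d + 1)) = d + 1) := ⟨by simp⟩
  have h3 : Module.finrank ℝ (ℝ ∙ n)ᗮ = d := Submodule.finrank_orthogonal_span_singleton hn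
  have h4 := Submodule.eq_of_le_of_finrank_eq h1 (h2.trans h3.symm)
  have h5 : y ∈ (ℝ ∙ n)ᗮ := (Submodule.mem_orthogonal_singleton_iff_inner_right).2 hy
  rw [← h4] at h5
  obtain ⟨x, hx⟩ := h5
  exact ⟨x, hx⟩

/-- each point `y ≠ v` of `P` belongs to a point of the figure -/
theorem dec {d : ℕ} {P : Set (E (d + 1))} {v n : E (d + 1)} {ι : E d →ₗᵢ[ℝ] E (d + 1)} (hs : Sup P v n) (hn : n ≠ 0)
    (ho : Ort n ι) {y : E (d + 1)} (hy : y ∈ P) (hyv : y ≠ v) :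
    ∃ (t : ℝ) (x : E d), 0 < t ∧ x ∈ fig v n ι P ∧ y - v = t • (n + ι x) := by
  have hnn : 0 < ⟪n, n⟫ := by
    rw [real_inner_self_eq_norm_sq]
    have := norm_pos_iff.2 hn
    positivity
  have h1 := hs y hy hyv
  have ht : 0 < ⟪y - v, n⟫ / ⟪n, n⟫ := div_pos h1 hnn
  obtain ⟨x, hx⟩ := ort_surj hn ho ((⟪y - v, n⟫ / ⟪n, n⟫)⁻¹ • (y - v) - n) (by
    rw [inner_sub_right, inner_smul_right, real_inner_comm (y - v) n, inv_div, div_mul_cancel₀ _ h1.ne', sub_self])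
  have e : y - v = (⟪y - v, n⟫ / ⟪n, n⟫) • (n + ι x) := by
    rw [hx, add_sub_cancel, smul_smul, mul_inv_cancel₀ ht.ne', one_smul]
  refine ⟨_, x, ht, ⟨_, ht, ?_⟩, e⟩
  rw [← e, add_sub_cancel]
  exact hy

/-- the point `v + t (n + ι x)` is not `v` -/
theorem ne_v {d : ℕ} {v n : E (d + 1)} {ι : E d →ₗᵢ[ℝ] E (d + 1)} (hn : n ≠ 0) (ho : Ort n ι) {t : ℝ} (ht : 0 < t)
    (x : E d) : v + t • (n + ι x) ≠ v := by
  intro h
  have h1 : t • (n + ι x) = 0 := by simpa using h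
  have h2 : n + ι x = 0 := (smul_eq_zero.1 h1).resolve_left ht.ne'
  have h3 : ⟪n, n + ι x⟫ = 0 := by rw [h2, inner_zero_right]
  rw [inner_add_right, ho x, add_zero, inner_self_eq_zero] at h3
  exact hn h3

/-- **(VF), third conjunct.** -/
theorem fig_surj {d : ℕ} {P : Set (E (d + 1))} {v n : E (d + 1)} {ι : E d →ₗᵢ[ℝ] E (d + 1)} (hv : Vx P v)
    (hs : Sup P v n) (hn : n ≠ 0) (ho : Ort n ι) :
    ∀ F', IsFace (fig v n ι P) F' → ∃ F, IsFace P F ∧ v ∈ F ∧ F ≠ {v} ∧ fig v n ι F = F' := by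
  rintro F' ⟨⟨x₀, hx₀⟩, hexp⟩
  obtain ⟨l, hl⟩ := hexp ⟨x₀, hx₀⟩
  have hvP : v ∈ P := (hv.2 ⟨v, rfl⟩).elim fun l' h' => by
    have : v ∈ ({v} : Set (E (d + 1))) := rfl
    rw [h'] at this
    exact this.1
  have hx₀' := hx₀
  rw [hl] at hx₀'
  obtain ⟨hx₀P, hmax⟩ := hx₀'
  -- the functional
  let A : E (d + 1) →L[ℝ] E d := ContinuousLinearMap.adjoint ι.toContinuousLinearMap
  have hA : ∀ x, A (n + ι x) = x := by
    intro x
    apply ext_inner_right ℝ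
    intro w
    change ⟪(ContinuousLinearMap.adjoint ι.toContinuousLinearMap) (n + ι x), w⟫ = ⟪x, w⟫
    rw [ContinuousLinearMap.adjoint_inner_left]
    change ⟪n + ι x, ι w⟫ = ⟪x, w⟫
    rw [inner_add_left, ho w, zero_add, ι.inner_map_map]
  have hnn : ⟪n, n⟫ ≠ 0 := fun h => hn (inner_self_eq_zero.1 h)
  let a : E (d + 1) →L[ℝ] ℝ := l.comp A - (l x₀ / ⟪n, n⟫) • (innerSL ℝ n)
  have ha : ∀ x, a (n + ι x) = l x - l x₀ := by
    intro x
    change l (A (n + ι x)) - (l x₀ / ⟪n, n⟫) * ⟪n, n + ι x⟫ = l x - l x₀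
    rw [hA, inner_add_right, ho x, add_zero, div_mul_cancel₀ _ hnn]
  have ha0 : ∀ (t : ℝ) (x : E d), a (v + t • (n + ι x)) = a v + t * (l x - l x₀) := by
    intro t x
    rw [map_add, map_smul, ha, smul_eq_mul]
  have hle : ∀ y ∈ P, a y ≤ a v := by
    intro y hy
    by_cases hyv : y = v
    · rw [hyv]
    · obtain ⟨t, x, ht, hx, e⟩ := dec hs hn ho hy hyv
      have e2 : y = v + t • (n + ι x) := by rw [← e, add_sub_cancel]
      rw [e2, ha0]
      have := hmax x hx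
      nlinarith
  refine ⟨{y ∈ P | ∀ z ∈ P, a z ≤ a y}, ⟨⟨v, hvP, hle⟩, fun _ => ⟨a, rfl⟩⟩, ⟨hvP, hle⟩, ?_, ?_⟩
  · intro h
    obtain ⟨t, ht, htP⟩ := hx₀P
    have h1 : v + t • (n + ι x₀) ∈ {y ∈ P | ∀ z ∈ P, a z ≤ a y} := by
      refine ⟨htP, fun z hz => ?_⟩
      rw [ha0, sub_self, mul_zero, add_zero]
      exact hle z hz
    rw [h] at h1
    exact ne_v hn ho ht x₀ h1
  · ext x
    constructor
    · rintro ⟨t, ht, htP, htmax⟩
      rw [hl]
      have hxP : x ∈ fig v n ι P := ⟨t, ht, htP⟩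
      refine ⟨hxP, fun y hy => ?_⟩
      have h1 := htmax v hvP
      rw [ha0] at h1
      have h2 : l x₀ ≤ l x := by
        by_contra hcon
        push Not at hcon
        nlinarith
      exact (hmax y hy).trans h2
    · intro hx
      have hx' := hx
      rw [hl] at hx'
      obtain ⟨⟨t, ht, htP⟩, hxmax⟩ := hx'
      refine ⟨t, ht, htP, fun z hz => ?_⟩
      rw [ha0]
      have h1 : l x = l x₀ := le_antisymm (hmax x ⟨t, ht, htP⟩) (hxmax x₀ hx₀P)
      rw [h1, sub_self, mul_zero, add_zero]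
      exact hle z hz

end Pool.Agent.T9h57.NK
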