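import Pool.Agent.T9h44.NK.SpecA
import Pool.Agent.T9h44.NK.SpecB
import Pool.Agent.T9h48.NK.TrCore

/-! Project NK (helper44), piece L2: cross-polytopes. Author: helper57. -/

set_option autoImplicit false

open Set
open scoped RealInnerProductSpace

namespace Pool.Agent.T9h57.NK

open Pool.Agent.T9h98.DC
open Pool.Agent.T9h44.NK
open Pool.Agent.T9h48.NK (face_image)

/-- the vectors from a vertex to its neighbours span the space -/
theorem span_nb (hC : S_CONE) {d : ℕ} {P : Set (E (d + 1))} (hP : IsPolytope P) {v : E (d + 1)} (hv : Vx P v)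
    {a : E (d + 1)} (h : ∀ y, Adj P v y → ⟪y - v, a⟫ = 0) : a = 0 := by
  have h1 : ∀ x ∈ P, ⟪x - v, a⟫ = 0 := by
    intro x hx
    obtain ⟨S, c, hS, e⟩ := hC d P v hP hv x hx
    rw [e, sum_inner]
    refine Finset.sum_eq_zero fun y hy => ?_
    rw [inner_smul_left, h y (hS y hy).1, mul_zero]
  obtain ⟨x0, hx0⟩ := hP.2
  obtain ⟨r, hr, hball⟩ := Metric.mem_nhds_iff.1 (mem_interior_iff_mem_nhds.1 hx0)
  have hx0P : x0 ∈ P := interior_subset hx0
  set ε := r / (2 * (‖a‖ + 1)) with hε
  have hn : 0 ≤ ‖a‖ := norm_nonneg a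
  have hε0 : 0 < ε := by positivity
  have h2 : x0 + ε • a ∈ P := by
    apply hball
    rw [Metric.mem_ball, dist_eq_norm, add_sub_cancel_left, norm_smul, Real.norm_eq_abs, abs_of_pos hε0, hε,
      div_mul_eq_mul_div, div_lt_iff₀ (by positivity)]
    nlinarith
  have h3 := h1 _ h2
  have h4 := h1 _ hx0P
  have h5 : x0 + ε • a - v = (x0 - v) + ε • a := by abel
  rw [h5, inner_add_left, h4, zero_add, inner_smul_left] at h3
  have h6 : ⟪a, a⟫ = 0 := by
    rcases mul_eq_zero.1 h3 with h | h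
    · exfalso
      have : ε = 0 := by simpa using h
      linarith
    · exact h
  exact inner_self_eq_zero.1 h6

/-- the chain of a vertex and an edge -/
def mkCh {d : ℕ} {P : Set (E d)} {v y : E d} (h1 : Vx P v) (h2 : IsFace P (segment ℝ v y))
    (h3 : dm (segment ℝ v y) = 1) : Ch P 2 where
  face := ![{v}, segment ℝ v y]
  isFace := by
    intro i
    fin_cases i
    · exact h1
    · exact h2
  dim := by
    intro i
    fin_cases i
    · change Module.finrank ℝ (vectorSpan ℝ ({v} : Set (E d))) = 0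
      rw [vectorSpan_singleton, finrank_bot]
    · exact h3
  mono := by
    intro i j hij
    fin_cases i <;> fin_cases j
    · exact le_rfl
    · change {v} ⊆ segment ℝ v y
      exact singleton_subset_iff.2 (left_mem_segment ℝ v y)
    · exact absurd hij (by decide)
    · exact le_rfl

variable {d : ℕ} {P : Set (E (d + 1))} {H : Subgroup (E (d + 1) ≃ₗᵢ[ℝ] E (d + 1))}

theorem vx_map (hH : Pres H P) {h : E (d + 1) ≃ₗᵢ[ℝ] E (d + 1)} (hh : h ∈ H) {x : E (d + 1)} (hx : Vx P x) :
    Vx P (h x) := by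
  have h1 := face_image h (hH h hh) hx
  rw [image_singleton] at h1
  exact h1

theorem adj_map (hH : Pres H P) {h : E (d + 1) ≃ₗᵢ[ℝ] E (d + 1)} (hh : h ∈ H) {x y : E (d + 1)} (hx : Adj P x y) :
    Adj P (h x) (h y) := by
  refine ⟨fun e => hx.1 (h.injective e), ?_⟩
  have h1 := face_image h (hH h hh) hx.2
  have h2 : h '' segment ℝ x y = segment ℝ (h x) (h y) :=
    image_segment ℝ h.toLinearEquiv.toLinearMap.toAffineMap x y
  rw [h2] at h1
  exact h1

/-- transitivity on the pairs of adjacent vertices -/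
theorem trans_adj (hF : S_FACES) (hP : IsPolytope P) (hH : Pres H P) (hT : PT 2 H P) {v y v' y' : E (d + 1)}
    (h1 : Adj P v y) (h2 : Adj P v' y') : ∃ h ∈ H, h v = v' ∧ h y = y' := by
  obtain ⟨-, -, -, -, -, -, -, -, f9, f10⟩ := hF (d + 1) P hP.1
  obtain ⟨a1, a2, -, a4⟩ := f9 v y h1
  obtain ⟨b1, b2, -, b4⟩ := f9 v' y' h2
  obtain ⟨h, hh, he⟩ := hT (mkCh a1 h1.2 a4) (mkCh b1 h2.2 b4)
  have e0 : h '' {v} = {v'} := he 0
  have e1 : h '' segment ℝ v y = segment ℝ v' y' := he 1
  rw [image_singleton, singleton_eq_singleton_iff] at e0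
  refine ⟨h, hh, e0, ?_⟩
  have h3 : h y ∈ segment ℝ v' y' := by
    rw [← e1]
    exact mem_image_of_mem _ (right_mem_segment ℝ v y)
  rcases f10 v' y' h2 (h y) (vx_map hH hh a2) h3 with h4 | h4
  · exfalso
    rw [← e0] at h4
    exact h1.1 (h.injective h4).symm
  · exact h4

theorem l2 (hF : S_FACES) (hC : S_CONE) (hM : S_M0) : S_L2 := by
  classical
  intro d P H hP hH hU hE hT
  have hPC := hM d P 0 hP hU hE (by norm_num)
  obtain ⟨f1, -, f3, f4, f5, -, -, -, f9, -⟩ := hF (d + 1) P hP.1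
  have hne : P.Nonempty := hP.2.mono interior_subset
  have hull : P = convexHull ℝ {v | Vx P v} := by
    have h1 := (f1 P (f5 hne).1).2
    have h2 : {v | Vx P v ∧ v ∈ P} = {v | Vx P v} := by
      ext v
      exact ⟨fun h => h.1, fun h => ⟨h, ((f4 v).1 h).1⟩⟩
    rw [h2] at h1
    exact h1
  have hnorm : ∀ v, Vx P v → ⟪v, v⟫ = 1 := fun v hv => by
    rw [real_inner_self_eq_norm_sq, hU v hv, one_pow]
  have hadj : ∀ v y, Adj P v y → Vx P v ∧ Vx P y := fun v y h => ⟨(f9 v y h).1, (f9 v y h).2.1⟩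
  obtain ⟨X, hX⟩ : ∃ X : Finset (E (d + 1)), ∀ v, v ∈ X ↔ Vx P v := ⟨f3.toFinset, fun v => by simp⟩
  -- each vertex has a neighbour
  have hnb : ∀ v, Vx P v → ∃ y, Adj P v y := by
    intro v hv
    by_contra hcon
    push Not at hcon
    have h1 := span_nb hC hP hv (a := v) (fun y hy => absurd hy (hcon y))
    have h2 := hU v hv
    rw [h1, norm_zero] at h2
    exact zero_ne_one h2
  -- the sum of the vertices
  have hsum : ∑ x ∈ X, x = 0 := by
    have hinv : ∀ h ∈ H, h (∑ x ∈ X, x) = ∑ x ∈ X, x := by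
      intro h hh
      rw [map_sum]
      refine Finset.sum_nbij' (fun x => h x) (fun x => h.symm x) ?_ ?_ ?_ ?_ ?_
      · intro x hx
        rw [hX] at hx ⊢
        exact vx_map hH hh hx
      · intro x hx
        rw [hX] at hx ⊢
        exact vx_map hH (H.inv_mem hh) hx
      · intro x _
        exact h.symm_apply_apply x
      · intro x _
        exact h.apply_symm_apply x
      · intro x _
        rfl
    obtain ⟨v, hv⟩ := (f5 hne).2
    refine span_nb hC hP hv fun y hy => ?_
    obtain ⟨h, hh, e1, -⟩ := trans_adj hF hP hH hT hy (f9 v y hy).2.2.1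
    rw [inner_sub_left, sub_eq_zero, ← e1]
    conv_lhs => rw [← hinv h hh]
    exact h.inner_map_map _ _
  -- the sum of the neighbours
  have hsumN : ∀ v, Vx P v → ∑ y ∈ X.filter (fun y => Adj P v y), y = 0 := by
    intro v hv
    set τ := ∑ y ∈ X.filter (fun y => Adj P v y), y with hτ
    have hinv : ∀ h ∈ H, h v = v → h τ = τ := by
      intro h hh hhv
      rw [hτ, map_sum]
      refine Finset.sum_nbij' (fun x => h x) (fun x => h.symm x) ?_ ?_ ?_ ?_ ?_
      · intro x hx
        rw [Finset.mem_filter, hX] at hx ⊢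
        refine ⟨vx_map hH hh hx.1, ?_⟩
        have := adj_map hH hh hx.2
        rw [hhv] at this
        exact this
      · intro x hx
        rw [Finset.mem_filter, hX] at hx ⊢
        refine ⟨vx_map hH (H.inv_mem hh) hx.1, ?_⟩
        have h1 := adj_map hH (H.inv_mem hh) hx.2
        have h2 : (h⁻¹ : E (d + 1) ≃ₗᵢ[ℝ] E (d + 1)) v = v := by
          conv_lhs => rw [← hhv]
          exact h.symm_apply_apply v
        rw [h2] at h1
        exact h1
      · intro x _
        exact h.symm_apply_apply x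
      · intro x _
        exact h.apply_symm_apply x
      · intro x _
        rfl
    obtain ⟨y0, hy0⟩ := hnb v hv
    have hconst : ∀ y, Adj P v y → ⟪y, τ⟫ = ⟪y0, τ⟫ := by
      intro y hy
      obtain ⟨h, hh, e1, e2⟩ := trans_adj hF hP hH hT hy0 hy
      rw [← e2]
      conv_lhs => rw [← hinv h hh e1]
      exact h.inner_map_map _ _
    have hvτ : ⟪v, τ⟫ = 0 := by
      rw [hτ, inner_sum]
      refine Finset.sum_eq_zero fun y hy => ?_
      rw [Finset.mem_filter] at hy
      exact hE v y hy.2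
    have h1 : τ + ⟪y0, τ⟫ • v = 0 := by
      refine span_nb hC hP hv fun y hy => ?_
      rw [inner_add_right, inner_smul_right, inner_sub_left, inner_sub_left, hconst y hy, hvτ, hnorm v hv,
        real_inner_comm v y, hE v y hy]
      ring
    have h2 : ⟪v, τ + ⟪y0, τ⟫ • v⟫ = 0 := by rw [h1, inner_zero_right]
    rw [inner_add_right, inner_smul_right, hvτ, hnorm v hv, zero_add, mul_one] at h2
    rw [h2, zero_smul, add_zero] at h1
    exact h1
  -- vertices which are not adjacent
  have hopp : ∀ v w, Vx P v → Vx P w → w ≠ v → ¬ Adj P v w → w = -v := by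
    intro v w hv hw hne' hna
    have h1 : ∀ y ∈ X.filter (fun y => Adj P v y), ⟪w, y⟫ ≤ 0 := by
      intro y hy
      rw [Finset.mem_filter, hX] at hy
      refine hPC w y hw hy.1 fun e => hna ?_
      rw [e]
      exact hy.2
    have h2 : ∑ y ∈ X.filter (fun y => Adj P v y), ⟪w, y⟫ = 0 := by
      rw [← inner_sum, hsumN v hv, inner_zero_right]
    have h3 := (Finset.sum_eq_zero_iff_of_nonpos h1).1 h2
    have h4 : w - ⟪w, v⟫ • v = 0 := by
      refine span_nb hC hP hv fun y hy => ?_
      have h5 : ⟪w, y⟫ = 0 := h3 y (by rw [Finset.mem_filter, hX]; exact ⟨(hadj v y hy).2, hy⟩)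
      rw [inner_sub_right, inner_smul_right, inner_sub_left, inner_sub_left, hnorm v hv, real_inner_comm w y, h5,
        real_inner_comm v y, hE v y hy, real_inner_comm w v]
      ring
    have h5 : w = ⟪w, v⟫ • v := sub_eq_zero.1 h4
    have h6 : ⟪w, v⟫ * ⟪w, v⟫ = 1 := by
      have h7 := hnorm w hw
      rw [h5, inner_smul_left, inner_smul_right, hnorm v hv] at h7
      simpa using h7
    rcases mul_self_eq_one_iff.1 h6 with h7 | h7
    · exfalso
      rw [h7, one_smul] at h5
      exact hne' h5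
    · rw [h7, neg_smul, one_smul] at h5
      exact h5
  have horth : ∀ v w, Vx P v → Vx P w → w ≠ v → w ≠ -v → ⟪v, w⟫ = 0 := by
    intro v w hv hw h1 h2
    by_contra hcon
    exact h2 (hopp v w hv hw h1 fun h => hcon (hE v w h))
  have hneg : ∀ v, Vx P v → Vx P (-v) := by
    intro v hv
    by_contra hcon
    have h1 : ∑ x ∈ X, ⟪v, x⟫ = 0 := by rw [← inner_sum, hsum, inner_zero_right]
    have h2 : ∑ x ∈ X, ⟪v, x⟫ = ⟪v, v⟫ := by
      refine Finset.sum_eq_single v (fun x hx hxv => ?_) (fun h => absurd ((hX v).2 hv) h)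
      rw [hX] at hx
      exact horth v x hv hx hxv fun e => hcon (e ▸ hx)
    rw [h2, hnorm v hv] at h1
    exact one_ne_zero h1
  -- a maximal orthonormal subset
  obtain ⟨Y, hY, hYmax⟩ := Finset.exists_max_image
    (X.powerset.filter (fun Y => ∀ a ∈ Y, ∀ b ∈ Y, a ≠ b → ⟪a, b⟫ = 0)) Finset.card
    ⟨∅, by rw [Finset.mem_filter, Finset.mem_powerset]; exact ⟨Finset.empty_subset _, by simp⟩⟩
  rw [Finset.mem_filter, Finset.mem_powerset] at hY
  obtain ⟨hYX, hYo⟩ := hY
  have hcov : ∀ x, Vx P x → x ∈ Y ∨ -x ∈ Y := by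
    intro x hx
    by_contra hcon
    push Not at hcon
    obtain ⟨hc1, hc2⟩ := hcon
    have hxy : ∀ y ∈ Y, ⟪x, y⟫ = 0 := fun y hy =>
      horth x y hx ((hX y).1 (hYX hy)) (fun e => hc1 (e ▸ hy)) (fun e => hc2 (e ▸ hy))
    have h1 := hYmax (insert x Y) (by
      rw [Finset.mem_filter, Finset.mem_powerset]
      refine ⟨Finset.insert_subset ((hX x).2 hx) hYX, ?_⟩
      intro a ha b hb hab
      rw [Finset.mem_insert] at ha hb
      rcases ha with rfl | ha
      · rcases hb with rfl | hb
        · exact absurd rfl hab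
        · exact hxy b hb
      · rcases hb with rfl | hb
        · rw [real_inner_comm]
          exact hxy a ha
        · exact hYo a ha b hb hab)
    rw [Finset.card_insert_of_notMem hc1] at h1
    omega
  have hon : Orthonormal ℝ (fun y : Y => (y : E (d + 1))) := by
    refine ⟨fun y => hU y ((hX y).1 (hYX y.2)), fun a b hab => ?_⟩
    exact hYo a a.2 b b.2 fun e => hab (Subtype.ext e)
  have hbot : (Submodule.span ℝ (range fun y : Y => (y : E (d + 1))))ᗮ = ⊥ := by
    rw [Submodule.eq_bot_iff]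
    intro a ha
    have h1 : ∀ y ∈ Y, ⟪y, a⟫ = 0 := fun y hy =>
      (Submodule.mem_orthogonal _ _).1 ha y (Submodule.subset_span ⟨⟨y, hy⟩, rfl⟩)
    have h2 : ∀ x, Vx P x → ⟪x, a⟫ = 0 := by
      intro x hx
      rcases hcov x hx with h | h
      · exact h1 x h
      · have := h1 _ h
        rw [inner_neg_left, neg_eq_zero] at this
        exact this
    obtain ⟨v, hv⟩ := (f5 hne).2
    refine span_nb hC hP hv fun y hy => ?_
    rw [inner_sub_left, h2 y (hadj v y hy).2, h2 v hv, sub_zero]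
  let b : OrthonormalBasis Y ℝ (E (d + 1)) := OrthonormalBasis.mkOfOrthogonalEqBot hon hbot
  have hb : ∀ y : Y, b y = (y : E (d + 1)) := fun y => by
    have := OrthonormalBasis.coe_of_orthogonal_eq_bot_mk hon hbot
    exact congrFun this y
  have hcard : Fintype.card Y = d + 1 := by
    have h1 := Module.finrank_eq_card_basis b.toBasis
    rw [← h1]
    simp
  let e : Y ≃ Fin (d + 1) := Fintype.equivFinOfCardEq hcard
  refine ⟨0, 1, b.reindex e, one_pos, ?_⟩
  conv_lhs => rw [hull]
  congr 1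
  ext x
  simp only [zero_add, one_smul, zero_sub, mem_ofPred_eq]
  constructor
  · intro hx
    rcases hcov x hx with h | h
    · refine ⟨e ⟨x, h⟩, Or.inl ?_⟩
      rw [OrthonormalBasis.reindex_apply, Equiv.symm_apply_apply, hb]
    · refine ⟨e ⟨-x, h⟩, Or.inr ?_⟩
      rw [OrthonormalBasis.reindex_apply, Equiv.symm_apply_apply, hb, neg_neg]
  · rintro ⟨i, hi | hi⟩
    · rw [hi, OrthonormalBasis.reindex_apply, hb]
      exact (hX _).1 (hYX (e.symm i).2)
    · rw [hi, OrthonormalBasis.reindex_apply, hb]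
      exact hneg _ ((hX _).1 (hYX (e.symm i).2))

end Pool.Agent.T9h57.NK
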